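import Pool.Agent.Helper11.SP.D3.C01
import Pool.Agent.Helper11.SP.D3.C02
import Pool.Agent.Helper11.SP.D3.C03
import Pool.Agent.Helper11.SP.D3.C04
import Pool.Agent.Helper11.SP.D3.C05
import Pool.Agent.Helper11.SP.D3.C06
import Pool.Agent.Helper11.SP.D3.C07
import Pool.Agent.Helper11.SP.D3.C08
import Pool.Agent.Helper11.SP.D3.C09
import Pool.Agent.Helper11.SP.D3.C10
import Pool.Agent.Helper11.SP.D3.C11
import Pool.Agent.Helper11.SP.D3.C12
import Pool.Agent.Helper11.SP.D3.C13
import Pool.Agent.Helper11.SP.D3.C14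
import Pool.Agent.Helper11.SP.D3.C15
import Pool.Agent.Helper11.SP.D3.C16
import Pool.Agent.Helper11.SP.D3.C17
import Pool.Agent.Helper11.SP.D3.C18
import Pool.Agent.Helper11.SP.D3.C19
import Pool.Agent.Helper11.SP.D3.C20
import Pool.Agent.Helper11.SP.D3.C21
import Pool.Agent.Helper11.SP.D3.C22
import Pool.Agent.Helper11.SP.D3.C23
import Pool.Agent.Helper11.SP.D3.C24
import Pool.Agent.Helper11.SP.List3
import Pool.Agent.Helper11.SP.OmVol3
import Pool.Agent.Helper11.SP.Gen

/-! Assembly of the certificate for `g = 3`. -/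

open MeasureTheory Filter

namespace Pool.Agent.Helper11.SP.D3

/-- All cells. -/
def all : List C3 := c1 ++ (c2 ++ (c3 ++ (c4 ++ (c5 ++ (c6 ++ (c7 ++ (c8 ++ (c9 ++ (c10 ++ (c11 ++ (c12 ++ (c13 ++ (c14 ++ (c15 ++ (c16 ++ (c17 ++ (c18 ++ (c19 ++ (c20 ++ (c21 ++ (c22 ++ (c23 ++ (c24)))))))))))))))))))))))

lemma chk_all : chk3 e0 all = some e24 := by
  unfold all
  rw [chk3_append, t1, Option.bind_some]
  rw [chk3_append, t2, Option.bind_some]
  rw [chk3_append, t3, Option.bind_some]
  rw [chk3_append, t4, Option.bind_some]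
  rw [chk3_append, t5, Option.bind_some]
  rw [chk3_append, t6, Option.bind_some]
  rw [chk3_append, t7, Option.bind_some]
  rw [chk3_append, t8, Option.bind_some]
  rw [chk3_append, t9, Option.bind_some]
  rw [chk3_append, t10, Option.bind_some]
  rw [chk3_append, t11, Option.bind_some]
  rw [chk3_append, t12, Option.bind_some]
  rw [chk3_append, t13, Option.bind_some]
  rw [chk3_append, t14, Option.bind_some]
  rw [chk3_append, t15, Option.bind_some]
  rw [chk3_append, t16, Option.bind_some]
  rw [chk3_append, t17, Option.bind_some]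
  rw [chk3_append, t18, Option.bind_some]
  rw [chk3_append, t19, Option.bind_some]
  rw [chk3_append, t20, Option.bind_some]
  rw [chk3_append, t21, Option.bind_some]
  rw [chk3_append, t22, Option.bind_some]
  rw [chk3_append, t23, Option.bind_some]
  exact t24

lemma wsum_all : wsum3 all = 102400240980 := by
  unfold all
  rw [wsum3_append, wsum3_append, wsum3_append, wsum3_append, wsum3_append, wsum3_append, wsum3_append, wsum3_append, wsum3_append, wsum3_append, wsum3_append, wsum3_append, wsum3_append, wsum3_append, wsum3_append, wsum3_append, wsum3_append, wsum3_append, wsum3_append, wsum3_append, wsum3_append, wsum3_append, wsum3_append]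
  rw [w1, w2, w3, w4, w5, w6, w7, w8, w9, w10, w11, w12, w13, w14, w15, w16, w17, w18, w19, w20, w21, w22, w23, w24]

theorem prop : ∀ᶠ X : ℝ in atTop,
    (3 / 4 : ℝ) * ((Helper3.salemSet 8 X).ncard : ℝ) ≤ ((parrySet 3 X).ncard : ℝ) := by
  obtain ⟨h1, h2, _, h4⟩ := list3_sound e0 e24 all chk_all
  refine prop_open (g := 3) (by norm_num) (reg3 all) h1 h2 (3 / 4) (by norm_num) ?_
  have hv : (volume (OmBar 3)).toReal ≤ 1024 / 45 := ENNReal.toReal_le_of_le_ofReal (by norm_num) vol3
  have hU : volume (reg3 all) < ⊤ := (measure_mono (h2.trans (Reg_subset 3))).trans_lt (OmBar_compact 3).measure_lt_top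
  rw [wsum_all] at h4
  have hw := (ENNReal.ofReal_le_iff_le_toReal hU.ne).1 h4
  push_cast at hw
  have hn : (3 / 4 : ℝ) * (1024 / 45) < 102400240980 / (6 * 10 ^ 9) := by norm_num
  nlinarith

end Pool.Agent.Helper11.SP.D3
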